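import Pool.Agent.Lib.MP_62ba83_co.BL.Main
import Pool.Agent.Lib.MP_62ba83_co.G.Defs

namespace Pool.Agent.Lib.MP_62ba83_co.BL

open MvPolynomial

/-- general type for the normalised system -/
def SysGen : Prop :=
  ∀ (K : Type) [Field K] [CharZero K] (D : K) (x y : Fin 5 → K) (d : Fin 5 → Fin 5 → K),
    Sys D x y d →
    IntermediateField.adjoin ℚ
      ({D} ∪ Set.range x ∪ Set.range y ∪ Set.range (Function.uncurry d)) = ⊤ →
    AlgebraicIndependent ℚ ![D, x 2, x 3, y 3, x 4, y 4] → G.GeneralType K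

theorem Sys.map {R S : Type*} [CommRing R] [CommRing S] (f : R →+* S) {D : R} {x y : Fin 5 → R}
    {d : Fin 5 → Fin 5 → R} (h : Sys D x y d) :
    Sys (f D) (fun i => f (x i)) (fun i => f (y i)) (fun i j => f (d i j)) :=
  ⟨fun i j => by rw [← map_pow, h.sq]; simp, fun i j => by rw [h.symm], by rw [h.x0, map_zero],
    by rw [h.y0, map_zero], by rw [h.x1, map_one], by rw [h.y1, map_zero],
    by rw [h.y2, map_one], by rw [h.d01, map_one]⟩

theorem ne_of {K : Type*} [Field K] [CharZero K] {D : K} {x y : Fin 5 → K}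
    {d : Fin 5 → Fin 5 → K} (hd : ∀ a b, d a b ^ 2 = (x a - x b) ^ 2 + D * (y a - y b) ^ 2)
    (x0 : x 0 = 0) (y0 : y 0 = 0) (x1 : x 1 = 1) (y1 : y 1 = 0) (y2 : y 2 = 1)
    (hai : AlgebraicIndependent ℚ ![D, x 2, x 3, y 3, x 4, y 4]) (a b : Fin 5) (hab : a < b) :
    d a b ≠ 0 := by
  intro h0
  let u : Fin 5 → MvPolynomial (Fin 6) ℚ := ![0, 1, X 1, X 2, X 4]
  let w : Fin 5 → MvPolynomial (Fin 6) ℚ := ![0, 0, 1, X 3, X 5]
  have hu : ∀ i, aeval ![D, x 2, x 3, y 3, x 4, y 4] (u i) = x i := by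
    intro i
    fin_cases i <;> simp [u, x0, x1]
  have hw : ∀ i, aeval ![D, x 2, x 3, y 3, x 4, y 4] (w i) = y i := by
    intro i
    fin_cases i <;> simp [w, y0, y1, y2]
  have h1 : (u a - u b) ^ 2 + X 0 * (w a - w b) ^ 2 = 0 := by
    apply algebraicIndependent_iff.1 hai
    have := hd a b
    rw [h0] at this
    simp only [map_add, map_mul, map_pow, map_sub, hu, hw, aeval_X]
    simpa using this.symm
  have h2 := congrArg (aeval (![0, 2, 3, 0, 4, 0] : Fin 6 → ℚ)) h1
  have hv : ∀ i, aeval (![0, 2, 3, 0, 4, 0] : Fin 6 → ℚ) (u i) = ((i : ℕ) : ℚ) := by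
    intro i
    fin_cases i <;> simp [u]
  simp only [map_add, map_mul, map_pow, map_sub, hv, aeval_X, map_zero] at h2
  have h3 : ((a : ℕ) : ℚ) = (b : ℕ) := by simpa [sub_eq_zero] using h2
  have h4 : (a : ℕ) = b := by exact_mod_cast h3
  exact hab.ne (Fin.ext h4)

theorem notDense (hA : SysGen) (hB : G.BombieriLang) : NotDense := by
  intro R _ _ _ _ D x y d hS hgen hai
  have : CharZero R := algebraRat.charZero R
  let K := FractionRing R
  let f : R →ₐ[ℚ] K := (algebraMap R K).toRatAlgHom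
  have hf : Function.Injective f := IsFractionRing.injective R K
  have top : ∀ s : Set K, (∀ a ∈ ({D} ∪ Set.range x ∪ Set.range y
      ∪ Set.range (Function.uncurry d) : Set R), f a ∈ s) → IntermediateField.adjoin ℚ s = ⊤ := by
    intro s hs
    have h1 : ∀ a : R, f a ∈ IntermediateField.adjoin ℚ s := by
      intro a
      have : Algebra.adjoin ℚ ({D} ∪ Set.range x ∪ Set.range y ∪ Set.range (Function.uncurry d))
          ≤ (IntermediateField.adjoin ℚ s).toSubalgebra.comap f :=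
        Algebra.adjoin_le fun b hb => IntermediateField.subset_adjoin ℚ s (hs b hb)
      exact this (hgen ▸ Algebra.mem_top)
    rw [eq_top_iff]
    intro z _
    obtain ⟨a, b, -, rfl⟩ := IsFractionRing.div_surjective (A := R) z
    exact div_mem (h1 a) (h1 b)
  have hG : G.GeneralType K := by
    refine hA K (f D) _ _ _ (hS.map (f : R →+* K)) (top _ ?_) ?_
    · rintro a (((rfl | ⟨i, rfl⟩) | ⟨i, rfl⟩) | ⟨i, rfl⟩)
      · exact .inl (.inl (.inl rfl))
      · exact .inl (.inl (.inr ⟨i, rfl⟩))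
      · exact .inl (.inr ⟨i, rfl⟩)
      · exact .inr ⟨i, rfl⟩
    · refine (congrArg (fun c : Fin 6 → K => AlgebraicIndependent ℚ c)
        (funext fun i => ?_)).mp (hai.map' hf)
      fin_cases i <;> rfl
  let g : V → R := Sum.elim (fun _ => D) (Sum.elim x (Sum.elim y (Function.uncurry d)))
  let e := (Fintype.equivFin V).symm
  obtain ⟨F, hF0, hF⟩ := hB K _ (fun i => f (g (e i))) (top _ (by
    rintro a (((rfl | ⟨i, rfl⟩) | ⟨i, rfl⟩) | ⟨i, rfl⟩)
    · exact ⟨e.symm vD, by simp [g]⟩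
    · exact ⟨e.symm (vx i), by simp [g]⟩
    · exact ⟨e.symm (vy i), by simp [g]⟩
    · exact ⟨e.symm (vd i.1 i.2), by simp [g]⟩)) hG
  have ev : ∀ (ψ : R →ₐ[ℚ] ℚ) (P : MvPolynomial _ ℚ),
      ψ (aeval (fun i => g (e i)) P) = eval (fun i => ψ (g (e i))) P := fun ψ P => by
    rw [comp_aeval_apply, aeval_eq_eval]
  refine ⟨aeval (fun i => g (e i)) F, fun h => hF0 ?_, fun ψ => ?_⟩
  · rw [← comp_aeval_apply, h, map_zero]
  · rw [ev]
    refine hF _ fun P hP => ?_
    rw [← comp_aeval_apply, map_eq_zero_iff f hf] at hP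
    rw [← ev, hP, map_zero]

end Pool.Agent.Lib.MP_62ba83_co.BL
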