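import Pool.Agent.Lib.MP_62ba83_co.BL.Comp

namespace Pool.Agent.Lib.MP_62ba83_co.BL

open MvPolynomial

abbrev E := EuclideanSpace ℝ (Fin 2)

/-- clearing denominators -/
theorem clear {ι P : Type*} [CommRing P] [Algebra ℚ P] (a : ι → P) (h : P)
    (g : MvPolynomial ι ℚ) :
    ∃ (f : P) (n : ℕ), ∀ ψ : P →ₐ[ℚ] ℝ, ψ h ≠ 0 →
      ψ f = ψ h ^ n * aeval (fun i => ψ (a i) / ψ h) g := by
  induction g using MvPolynomial.induction_on with
  | C c => exact ⟨algebraMap ℚ P c, 0, fun ψ _ => by simp⟩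
  | add p q hp hq =>
    obtain ⟨f, n, hf⟩ := hp
    obtain ⟨f', n', hf'⟩ := hq
    refine ⟨f * h ^ n' + f' * h ^ n, n + n', fun ψ hψ => ?_⟩
    simp only [map_add, map_mul, map_pow, hf ψ hψ, hf' ψ hψ]
    ring
  | mul_X p i hp =>
    obtain ⟨f, n, hf⟩ := hp
    refine ⟨f * a i, n + 1, fun ψ hψ => ?_⟩
    simp only [map_mul, hf ψ hψ, aeval_X]
    field_simp
    ring

section
variable {A : Type*} [CommRing A] (c : Fin 5 × Fin 2 → A)

/-- squared length of the first side -/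
def nn : A := (c (1, 0) - c (0, 0)) ^ 2 + (c (1, 1) - c (0, 1)) ^ 2
/-- scalar product with the first side -/
def xx (j : Fin 5) : A :=
  (c (j, 0) - c (0, 0)) * (c (1, 0) - c (0, 0)) + (c (j, 1) - c (0, 1)) * (c (1, 1) - c (0, 1))
/-- determinant with the first side -/
def yy (j : Fin 5) : A :=
  (c (1, 0) - c (0, 0)) * (c (j, 1) - c (0, 1)) - (c (1, 1) - c (0, 1)) * (c (j, 0) - c (0, 0))

theorem xy_sq (i j : Fin 5) : (xx c i - xx c j) ^ 2 + (yy c i - yy c j) ^ 2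
    = nn c * ((c (i, 0) - c (j, 0)) ^ 2 + (c (i, 1) - c (j, 1)) ^ 2) := by
  unfold xx yy nn; ring

theorem xx_zero : xx c 0 = 0 := by simp [xx]
theorem yy_zero : yy c 0 = 0 := by simp [yy]
theorem xx_one : xx c 1 = nn c := by unfold xx nn; ring
theorem yy_one : yy c 1 = 0 := by unfold yy; ring
end

/-- coordinates of a five-tuple -/
def co (q : Fin 5 → E) : Fin 5 × Fin 2 → ℝ := fun s => q s.1 s.2

theorem dist_sq (q : Fin 5 → E) (i j : Fin 5) : dist (q i) (q j) ^ 2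
    = (co q (i, 0) - co q (j, 0)) ^ 2 + (co q (i, 1) - co q (j, 1)) ^ 2 := by
  rw [EuclideanSpace.dist_sq_eq]
  simp [co, Real.dist_eq]

/-- a rational five-tuple gives a rational point of the normalised system -/
theorem point (q : Fin 5 → E) (hq : ∀ i j, ∃ r : ℚ, dist (q i) (q j) = (r : ℝ))
    (hn : nn (co q) ≠ 0) (hy : yy (co q) 2 ≠ 0) :
    ∃ (D : ℚ) (x y : Fin 5 → ℚ) (d : Fin 5 → Fin 5 → ℚ),
      (∀ i j, d i j ^ 2 = (x i - x j) ^ 2 + D * (y i - y j) ^ 2) ∧ (∀ i j, d i j = d j i) ∧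
      x 0 = 0 ∧ y 0 = 0 ∧ x 1 = 1 ∧ y 1 = 0 ∧ y 2 = 1 ∧ d 0 1 = 1 ∧
      (D : ℝ) = (yy (co q) 2 / nn (co q)) ^ 2 ∧ (∀ j, (x j : ℝ) = xx (co q) j / nn (co q)) ∧
      ∀ j, (y j : ℝ) = yy (co q) j / yy (co q) 2 := by
  choose r hr using hq
  have hN : nn (co q) = (r 0 1 : ℝ) ^ 2 := by
    rw [← hr, dist_sq]; unfold nn; ring
  have h01 : (r 0 1 : ℝ) ≠ 0 := fun h => hn (by rw [hN, h]; ring)
  have h01' : r 0 1 ≠ 0 := by exact_mod_cast h01
  have key : ∀ i j, ((r i j / r 0 1 : ℚ) : ℝ) ^ 2 = (xx (co q) i / nn (co q)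
      - xx (co q) j / nn (co q)) ^ 2 + (yy (co q) i / nn (co q) - yy (co q) j / nn (co q)) ^ 2 := by
    intro i j
    have h := xy_sq (co q) i j
    rw [← dist_sq, hr] at h
    rw [← sub_div, ← sub_div, div_pow, div_pow, ← add_div, h, hN]
    push_cast
    field_simp
  have hx : ∀ j, ∃ a : ℚ, (a : ℝ) = xx (co q) j / nn (co q) := by
    intro j
    refine ⟨(1 + (r 0 j / r 0 1) ^ 2 - (r 1 j / r 0 1) ^ 2) / 2, ?_⟩
    have h0 := key 0 j
    have h1 := key 1 j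
    rw [xx_zero, yy_zero] at h0
    rw [xx_one, yy_one, div_self hn] at h1
    rw [Rat.cast_div, Rat.cast_sub, Rat.cast_add, Rat.cast_pow, Rat.cast_pow, h0, h1]
    push_cast
    ring
  choose x hx using hx
  have hyy : ∀ j, ∃ a : ℚ, (a : ℝ) = yy (co q) j / nn (co q) * (yy (co q) 2 / nn (co q)) := by
    intro j
    refine ⟨((r 0 j / r 0 1) ^ 2 + (r 0 2 / r 0 1) ^ 2 - (r j 2 / r 0 1) ^ 2) / 2 - x j * x 2, ?_⟩
    have h0 := key 0 j
    have h1 := key 0 2
    have h2 := key j 2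
    rw [xx_zero, yy_zero] at h0 h1
    rw [Rat.cast_sub, Rat.cast_div, Rat.cast_sub, Rat.cast_add, Rat.cast_pow, Rat.cast_pow,
      Rat.cast_pow, h0, h1, h2, Rat.cast_mul, hx, hx]
    push_cast
    ring
  choose b hb using hyy
  have hyj : ∀ j, ((b j / b 2 : ℚ) : ℝ) = yy (co q) j / yy (co q) 2 := by
    intro j
    rw [Rat.cast_div, hb, hb]
    field_simp
  refine ⟨b 2, x, fun j => b j / b 2, fun i j => r i j / r 0 1, ?_, ?_, ?_, ?_, ?_, ?_, ?_, ?_,
    ?_, hx, hyj⟩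
  · intro i j
    have : ((r i j / r 0 1 : ℚ) : ℝ) ^ 2 = ((x i : ℝ) - x j) ^ 2
        + (b 2 : ℝ) * (((b i / b 2 : ℚ) : ℝ) - ((b j / b 2 : ℚ) : ℝ)) ^ 2 := by
      rw [key, hx, hx, hyj, hyj, hb]
      field_simp
    exact_mod_cast this
  · intro i j
    have : (r i j : ℝ) = r j i := by rw [← hr, ← hr, dist_comm]
    have h : r i j = r j i := by exact_mod_cast this
    simp only [h]
  · have := hx 0
    rw [xx_zero, zero_div] at this
    exact_mod_cast this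
  · have := hyj 0
    rw [yy_zero, zero_div] at this
    exact_mod_cast this
  · have := hx 1
    rw [xx_one, div_self hn] at this
    exact_mod_cast this
  · have := hyj 1
    rw [yy_one, zero_div] at this
    exact_mod_cast this
  · have := hyj 2
    rw [div_self hy] at this
    exact_mod_cast this
  · exact div_self h01'
  · rw [hb]; ring

end Pool.Agent.Lib.MP_62ba83_co.BL
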