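import Mathlib

namespace Pool.Agent.Lib.MP_62ba83_co.BL

open MvPolynomial

/-- If on every component of the Zariski closure of `T` on which `φ` is algebraically independent
the rational points are not dense, then `φ` satisfies one relation on all of `T`. -/
theorem components {k σ ι : Type*} [Field k] [Finite σ] (T : Set (σ → k))
    (φ : ι → MvPolynomial σ k)
    (H : ∀ p : Ideal (MvPolynomial σ k), p.IsPrime →
      (∀ f : MvPolynomial σ k, (∀ t ∈ T, aeval t f = 0) → f ∈ p) →
      AlgebraicIndependent k (fun i => Ideal.Quotient.mk p (φ i)) →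
      ∃ r : MvPolynomial σ k ⧸ p, r ≠ 0 ∧ ∀ ψ : (MvPolynomial σ k ⧸ p) →ₐ[k] k, ψ r = 0) :
    ∃ g : MvPolynomial ι k, g ≠ 0 ∧ ∀ t ∈ T, aeval (fun i => aeval t (φ i)) g = 0 := by
  classical
  let I : Ideal (MvPolynomial σ k) := ⨅ t ∈ T, RingHom.ker (aeval t : MvPolynomial σ k →ₐ[k] k)
  have hI : ∀ f, f ∈ I ↔ ∀ t ∈ T, aeval t f = 0 := by
    intro f; simp [I, RingHom.mem_ker]
  have hfin := Ideal.finite_minimalPrimes_of_isNoetherianRing _ I
  have hT : ∀ t ∈ T, ∃ p ∈ I.minimalPrimes, ∀ f ∈ p, aeval t f = 0 := by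
    intro t ht
    have : (RingHom.ker (aeval t : MvPolynomial σ k →ₐ[k] k)).IsPrime := RingHom.ker_isPrime _
    obtain ⟨p, hp, hle⟩ := Ideal.exists_minimalPrimes_le
      (I := I) (J := RingHom.ker (aeval t : MvPolynomial σ k →ₐ[k] k))
      (fun f hf => (hI f).1 hf t ht)
    exact ⟨p, hp, fun f hf => hle hf⟩
  have key : ∀ p ∈ I.minimalPrimes, ∃ g : MvPolynomial ι k, g ≠ 0 ∧ aeval φ g ∈ p := by
    intro p hp
    have hpp : p.IsPrime := hp.1.1
    by_contra hc
    push Not at hc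
    have hai : AlgebraicIndependent k (fun i => Ideal.Quotient.mk p (φ i)) := by
      rw [algebraicIndependent_iff]
      intro g hg
      by_contra h0
      apply hc g h0
      rw [← Ideal.Quotient.eq_zero_iff_mem, ← hg]
      exact (comp_aeval_apply φ (Ideal.Quotient.mkₐ k p) g)
    obtain ⟨r, hr0, hr⟩ := H p hpp (fun f hf => hp.1.2 ((hI f).2 hf)) hai
    obtain ⟨r, rfl⟩ := Ideal.Quotient.mk_surjective r
    have hoth : ∀ q ∈ hfin.toFinset.erase p, ∃ g ∈ q, g ∉ p := by
      intro q hq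
      obtain ⟨hne, hq⟩ := Finset.mem_erase.1 hq
      rw [Set.Finite.mem_toFinset] at hq
      by_contra hh
      push Not at hh
      exact hne (le_antisymm hh (hp.2 hq.1 hh))
    choose! G hG1 hG2 using hoth
    have hmem : r * ∏ q ∈ hfin.toFinset.erase p, G q ∈ p := by
      apply hp.1.2
      rw [hI]
      intro t ht
      obtain ⟨q, hq, hqt⟩ := hT t ht
      rw [map_mul]
      by_cases e : q = p
      · subst e
        have : aeval t r = 0 := hr (Ideal.Quotient.liftₐ q (aeval t) hqt)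
        rw [this, zero_mul]
      · have hq' : q ∈ hfin.toFinset.erase p :=
          Finset.mem_erase.2 ⟨e, (Set.Finite.mem_toFinset _).2 hq⟩
        rw [map_prod, Finset.prod_eq_zero hq' (hqt _ (hG1 q hq')), mul_zero]
    rcases hpp.mem_or_mem hmem with h | h
    · exact hr0 (Ideal.Quotient.eq_zero_iff_mem.2 h)
    · obtain ⟨q, hq, hq2⟩ := Ideal.IsPrime.prod_mem_iff.1 h
      exact hG2 q hq hq2
  choose! g hg0 hg using key
  refine ⟨∏ p ∈ hfin.toFinset, g p, ?_, ?_⟩
  · exact Finset.prod_ne_zero_iff.2 fun p hp => hg0 p ((Set.Finite.mem_toFinset _).1 hp)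
  · intro t ht
    obtain ⟨q, hq, hqt⟩ := hT t ht
    rw [map_prod]
    refine Finset.prod_eq_zero ((Set.Finite.mem_toFinset hfin).2 hq) ?_
    rw [← hqt _ (hg q hq)]
    exact (comp_aeval_apply φ (aeval t : MvPolynomial σ k →ₐ[k] k) (g q)).symm

end Pool.Agent.Lib.MP_62ba83_co.BL
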