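import Pool.Agent.Lib.MP_62ba83_co.BL.Bridge

namespace Pool.Agent.Lib.MP_62ba83_co.BL

open MvPolynomial

/-- the normalised system of five points with their distances in a ring -/
structure Sys {R : Type*} [CommRing R] (D : R) (x y : Fin 5 → R) (d : Fin 5 → Fin 5 → R) :
    Prop where
  sq : ∀ i j, d i j ^ 2 = (x i - x j) ^ 2 + D * (y i - y j) ^ 2
  symm : ∀ i j, d i j = d j i
  x0 : x 0 = 0
  y0 : y 0 = 0
  x1 : x 1 = 1
  y1 : y 1 = 0
  y2 : y 2 = 1
  d01 : d 0 1 = 1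

/-- rational points are not dense on the six-dimensional components of the system -/
def NotDense : Prop :=
  ∀ (R : Type) [CommRing R] [IsDomain R] [Algebra ℚ R] [Algebra.FiniteType ℚ R] (D : R)
    (x y : Fin 5 → R) (d : Fin 5 → Fin 5 → R), Sys D x y d →
    Algebra.adjoin ℚ ({D} ∪ Set.range x ∪ Set.range y ∪ Set.range (Function.uncurry d)) = ⊤ →
    AlgebraicIndependent ℚ ![D, x 2, x 3, y 3, x 4, y 4] →
    ∃ r : R, r ≠ 0 ∧ ∀ ψ : R →ₐ[ℚ] ℚ, ψ r = 0

abbrev V := Unit ⊕ Fin 5 ⊕ Fin 5 ⊕ Fin 5 × Fin 5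
abbrev vD : V := .inl ()
abbrev vx (i : Fin 5) : V := .inr (.inl i)
abbrev vy (i : Fin 5) : V := .inr (.inr (.inl i))
abbrev vd (i j : Fin 5) : V := .inr (.inr (.inr (i, j)))

theorem relation (H : NotDense) : ∃ g : MvPolynomial (Fin 6) ℚ, g ≠ 0 ∧
    ∀ (D : ℚ) (x y : Fin 5 → ℚ) (d : Fin 5 → Fin 5 → ℚ), Sys D x y d →
      aeval ![D, x 2, x 3, y 3, x 4, y 4] g = 0 := by
  obtain ⟨g, hg0, hg⟩ := components
    {t : V → ℚ | Sys (t vD) (fun i => t (vx i)) (fun i => t (vy i)) (fun i j => t (vd i j))}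
    (fun i : Fin 6 => X (![vD, vx 2, vx 3, vy 3, vx 4, vy 4] i)) (by
      intro p hp hI hai
      have z : ∀ f g : MvPolynomial V ℚ, (∀ t : V → ℚ, Sys (t vD) (fun i => t (vx i))
          (fun i => t (vy i)) (fun i j => t (vd i j)) → aeval t f = aeval t g) →
          Ideal.Quotient.mk p f = Ideal.Quotient.mk p g := fun f g h =>
        Ideal.Quotient.eq.2 (hI _ fun t ht => by rw [map_sub, h t ht, sub_self])
      refine H _ (Ideal.Quotient.mk p (X vD)) (fun i => Ideal.Quotient.mk p (X (vx i)))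
        (fun i => Ideal.Quotient.mk p (X (vy i))) (fun i j => Ideal.Quotient.mk p (X (vd i j)))
        ⟨fun i j => ?_, fun i j => z _ _ fun t h => by simpa using h.symm i j,
          z _ 0 fun t h => by simpa using h.x0, z _ 0 fun t h => by simpa using h.y0,
          z _ 1 fun t h => by simpa using h.x1, z _ 0 fun t h => by simpa using h.y1,
          z _ 1 fun t h => by simpa using h.y2, z _ 1 fun t h => by simpa using h.d01⟩ ?_ ?_
      · have := z (X (vd i j) ^ 2) ((X (vx i) - X (vx j)) ^ 2 + X vD * (X (vy i) - X (vy j)) ^ 2)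
          fun t h => by simpa using h.sq i j
        simpa using this
      · rw [eq_top_iff]
        intro r _
        obtain ⟨f, rfl⟩ := Ideal.Quotient.mk_surjective r
        induction f using MvPolynomial.induction_on with
        | C c => exact Subalgebra.algebraMap_mem _ c
        | add a b ha hb => rw [map_add]; exact add_mem (ha trivial) (hb trivial)
        | mul_X a s ha =>
          rw [map_mul]
          refine mul_mem (ha trivial) (Algebra.subset_adjoin ?_)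
          rcases s with _ | i | i | ⟨i, j⟩
          · exact .inl (.inl (.inl rfl))
          · exact .inl (.inl (.inr ⟨i, rfl⟩))
          · exact .inl (.inr ⟨i, rfl⟩)
          · exact .inr ⟨(i, j), rfl⟩
      · refine (congrArg (fun c : Fin 6 → MvPolynomial V ℚ ⧸ p => AlgebraicIndependent ℚ c)
          (funext fun i => ?_)).mp hai
        fin_cases i <;> rfl)
  refine ⟨g, hg0, fun D x y d h => ?_⟩
  have := hg (Sum.elim (fun _ => D) (Sum.elim x (Sum.elim y (Function.uncurry d)))) h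
  refine (congrArg (fun c => aeval c g) (funext fun i => ?_)).trans this
  fin_cases i <;> simp

theorem exists_ne {σ : Type*} (g : MvPolynomial σ ℚ) (hg : g ≠ 0) (s : σ → Set ℝ)
    (hs : ∀ i, (s i).Infinite) : ∃ v : σ → ℝ, (∀ i, v i ∈ s i) ∧ aeval v g ≠ 0 := by
  by_contra hc
  push Not at hc
  apply hg
  apply map_injective (algebraMap ℚ ℝ) (algebraMap ℚ ℝ).injective
  refine funext_set s hs fun v hv => ?_
  rw [map_zero, map_zero, eval_map, ← aeval_def]
  exact hc v fun i => hv i trivial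

theorem aeval_nn (c : Fin 5 × Fin 2 → ℝ) : aeval c (nn X : MvPolynomial _ ℚ) = nn c := by
  simp [nn]
theorem aeval_xx (c : Fin 5 × Fin 2 → ℝ) (j : Fin 5) :
    aeval c (xx X j : MvPolynomial _ ℚ) = xx c j := by simp [xx]
theorem aeval_yy (c : Fin 5 × Fin 2 → ℝ) (j : Fin 5) :
    aeval c (yy X j : MvPolynomial _ ℚ) = yy c j := by simp [yy]

theorem hypersurface (H : NotDense) : ∃ f : MvPolynomial (Fin 5 × Fin 2) ℚ, f ≠ 0 ∧
    ∀ q : Fin 5 → E, (∀ i j, ∃ r : ℚ, dist (q i) (q j) = (r : ℝ)) → aeval (co q) f = 0 := by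
  obtain ⟨g, hg0, hg⟩ := relation H
  obtain ⟨f, n, hf⟩ := clear (P := MvPolynomial (Fin 5 × Fin 2) ℚ)
    ![yy X 2 ^ 3, xx X 2 * nn X * yy X 2, xx X 3 * nn X * yy X 2, yy X 3 * nn X ^ 2,
      xx X 4 * nn X * yy X 2, yy X 4 * nn X ^ 2] (nn X ^ 2 * yy X 2) g
  have hf' : ∀ c : Fin 5 × Fin 2 → ℝ, nn c ≠ 0 → yy c 2 ≠ 0 →
      aeval c f = (nn c ^ 2 * yy c 2) ^ n * aeval ![(yy c 2 / nn c) ^ 2, xx c 2 / nn c,
        xx c 3 / nn c, yy c 3 / yy c 2, xx c 4 / nn c, yy c 4 / yy c 2] g := by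
    intro c hn hy
    have := hf (aeval c) (by
      rw [map_mul, map_pow, aeval_nn, aeval_yy]; exact mul_ne_zero (pow_ne_zero _ hn) hy)
    rw [this, map_mul, map_pow, aeval_nn, aeval_yy]
    congr 3
    ext i
    fin_cases i <;> simp [aeval_nn, aeval_xx, aeval_yy] <;> field_simp
  refine ⟨f * (nn X * yy X 2), ?_, fun q hq => ?_⟩
  · obtain ⟨v, hv, hne⟩ := exists_ne g hg0 (fun _ => Set.Ioi 0) fun _ => Set.Ioi_infinite 0
    have h0 : 0 < v 0 := hv 0
    have hs : √(v 0) ≠ 0 := (Real.sqrt_pos.2 h0).ne'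
    let c : Fin 5 × Fin 2 → ℝ := fun s =>
      ![![0, 0], ![1, 0], ![v 1, √(v 0)], ![v 2, v 3 * √(v 0)], ![v 4, v 5 * √(v 0)]] s.1 s.2
    have hn : nn c = 1 := by simp [nn, c]
    have hy : yy c 2 = √(v 0) := by simp [yy, c]
    intro h
    have h1 := congrArg (aeval c) h
    rw [map_mul, map_mul, aeval_nn, aeval_yy, hf' c (by simp [hn]) (by simpa [hy] using hs),
      map_zero, hn, hy] at h1
    have e : ![(√(v 0) / 1) ^ 2, xx c 2 / 1, xx c 3 / 1, yy c 3 / √(v 0), xx c 4 / 1,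
        yy c 4 / √(v 0)] = v := by
      ext i
      fin_cases i <;> simp [xx, yy, c, hs, h0.le]
    rw [e] at h1
    simp [hs, hne] at h1
  · rw [map_mul, map_mul, aeval_nn, aeval_yy]
    by_cases hn : nn (co q) = 0
    · simp [hn]
    by_cases hy : yy (co q) 2 = 0
    · simp [hy]
    obtain ⟨D, x, y, d, h1, h2, h3, h4, h5, h6, h7, h8, hD, hx, hy'⟩ := point q hq hn hy
    have h := hg D x y d ⟨h1, h2, h3, h4, h5, h6, h7, h8⟩
    have h' := comp_aeval_apply ![D, x 2, x 3, y 3, x 4, y 4] (Algebra.ofId ℚ ℝ) g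
    rw [h, map_zero] at h'
    rw [hf' _ hn hy, ← hD, ← hx, ← hx, ← hx, ← hy', ← hy']
    have e : (![(D : ℝ), x 2, x 3, y 3, x 4, y 4]) = fun i =>
        Algebra.ofId ℚ ℝ (![D, x 2, x 3, y 3, x 4, y 4] i) := by
      ext i
      fin_cases i <;> rfl
    rw [e, ← h']
    simp

theorem cont (f : MvPolynomial (Fin 5 × Fin 2) ℚ) :
    Continuous fun q : Fin 5 → E => aeval (co q) f := by
  induction f using MvPolynomial.induction_on with
  | C c => simpa using continuous_const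
  | add a b ha hb => simp only [map_add]; exact ha.add hb
  | mul_X a s ha =>
    simp only [map_mul, aeval_X]
    refine ha.mul ?_
    unfold co
    fun_prop

/-- the final form -/
theorem final (H : NotDense) :
    (∃ f : MvPolynomial (Fin 5 × Fin 2) ℚ, f ≠ 0 ∧ ∀ p : Fin 5 → E,
      (∀ ε : ℝ, 0 < ε → ∃ q : Fin 5 → E, (∀ i, dist (p i) (q i) < ε) ∧
        ∀ i j, ∃ r : ℚ, dist (q i) (q j) = (r : ℝ)) →
      aeval (fun s : Fin 5 × Fin 2 => p s.1 s.2) f = 0) ∧
    ¬ (∀ p : Fin 5 → E, Function.Injective p → ∀ ε : ℝ, 0 < ε → ∃ q : Fin 5 → E,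
      (∀ i, dist (p i) (q i) < ε) ∧ ∀ i j, ∃ r : ℚ, dist (q i) (q j) = (r : ℝ)) := by
  obtain ⟨f, hf0, hf⟩ := hypersurface H
  have main : ∀ p : Fin 5 → E, (∀ ε : ℝ, 0 < ε → ∃ q : Fin 5 → E, (∀ i, dist (p i) (q i) < ε) ∧
      ∀ i j, ∃ r : ℚ, dist (q i) (q j) = (r : ℝ)) → aeval (co p) f = 0 := by
    intro p hp
    have hc : IsClosed {q : Fin 5 → E | aeval (co q) f = 0} :=
      isClosed_eq (cont f) continuous_const
    refine hc.closure_subset (Metric.mem_closure_iff.2 fun ε hε => ?_)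
    obtain ⟨q, h1, h2⟩ := hp ε hε
    exact ⟨q, hf q h2, (dist_pi_lt_iff hε).2 h1⟩
  refine ⟨⟨f, hf0, main⟩, fun h => ?_⟩
  obtain ⟨v, hv, hne⟩ := exists_ne f hf0 (fun s => Set.Ioo (s.1 : ℝ) (s.1 + 1))
    fun _ => Set.Ioo_infinite (by linarith)
  let p : Fin 5 → E := fun i => WithLp.toLp 2 fun c => v (i, c)
  refine hne (main p (h p fun i j hij => ?_))
  have e : v (i, 0) = v (j, 0) := congrArg (fun z : E => z 0) hij
  have a := hv (i, 0)
  have b := hv (j, 0)
  simp only [Set.mem_Ioo] at a b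
  rw [e] at a
  have h1 : (i : ℕ) < j + 1 := by exact_mod_cast a.1.trans b.2
  have h2 : (j : ℕ) < i + 1 := by exact_mod_cast b.1.trans a.2
  exact Fin.ext (by omega)

end Pool.Agent.Lib.MP_62ba83_co.BL
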